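import Pool.Agent.Q113.XU.Stm
import Pool.Agent.Q223.EM.EB
import Pool.Agent.Q162.EM.Zon
import Pool.Agent.Q225.EM.SER

set_option autoImplicit false

namespace Pool.Agent.Q96.XU

open Pool.Agent.Q54.EM Pool.Agent.Q113.XU

theorem ff_pos (q : ℝ) (h0 : 0 < q) (h1 : q < 1) : 0 < ff q := by
  unfold ff
  have : Real.log (1 - q) < 0 := Real.log_neg (by linarith) (by linarith)
  exact div_pos (by linarith) h0

theorem strict_of {q c e e' A : ℝ} (hq : 0 < q) (hq1 : q < 1) (hc : 0 < c) (he : e' < e)
    (h : A ≤ (1 - c * q * (1 + e)) * ff q) : A < (1 - c * q * (1 + e')) * ff q := by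
  have h1 := ff_pos q hq hq1
  have h2 : 0 < c * q * ff q * (e - e') := by
    have : 0 < e - e' := by linarith
    positivity
  nlinarith

theorem t_EBs : S_EBs := by
  intro q t c e hq hq37 ht ht1 hc hc1 hc2 hq15 he h
  have hEB : S_EB := Pool.Agent.Q223.EM.eb Pool.Agent.Q225.EM.ser
  have key : ∀ e', 0 ≤ e' → e' < e → e' ≤ 2 / 10 ∧ (t ≤ 2 / 10 → e' ≤ 2 / 10 * t) := by
    intro e' he' hlt
    exact hEB q t c e' hq hq37 ht ht1 hc hc1 hc2 hq15 he'
      (strict_of hq (by linarith) (by linarith) hlt h)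
  constructor
  · by_contra hcon
    push Not at hcon
    have := (key ((2 / 10 + e) / 2) (by linarith) (by linarith)).1
    linarith
  · intro ht2
    by_contra hcon
    push Not at hcon
    have := (key ((2 / 10 * t + e) / 2) (by linarith) (by linarith)).2 ht2
    linarith

theorem t_E18s : S_E18s := by
  intro q t c e hq hq37 ht ht1 hc1 hc2 hq15 he h
  have hE : S_E18 := Pool.Agent.Q162.EM.e18 Pool.Agent.Q225.EM.ser
  by_contra hcon
  push Not at hcon
  have h0 : 0 ≤ q * (1 - t) := by
    have : 0 ≤ 1 - t := by linarith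
    positivity
  have := hE q t c ((18 / 100 + e) / 2) hq hq37 ht ht1 hc1 hc2 hq15 (by linarith)
    (strict_of (by linarith) (by linarith) (by linarith) (by linarith) h)
  linarith

/-- premise of P0, strict form -/
theorem t_BPs : S_BPs := by
  intro q a c x hq0 hq1 ha0 ha1 hc1 hc2 hx
  have hc0 : 458 / 1000 ≤ c := by linarith
  have hca0 : 0 ≤ c * a := mul_nonneg (by linarith) ha0
  have hca1 : c * a ≤ 4724 / 10000 * (15456 / 100000) := by
    apply mul_le_mul hc2 ha1 ha0 (by norm_num)
  have hca2 : 458 / 1000 * a ≤ c * a := by gcongr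
  have hcca : 0 ≤ c * (c * a) := mul_nonneg (by linarith) hca0
  have hK : 61 / 100 ≤ 1 - c * a - 2 * a := by linarith
  have hexp : q * (1 - c * (1 - c * a - a) + (1 - c * a - 2 * a) * x) =
      q * (1 - c) + q * (c * (c * a)) + q * (c * a) + (1 - c * a - 2 * a) * (q * x) := by ring
  rw [hexp]
  have h1 : 0 ≤ q * (c * (c * a)) := mul_nonneg hq0.le hcca
  rcases hx with ⟨hq2, hq3, hx⟩ | ⟨hq2, hq3, hx⟩ | ⟨hq2, hq3, hx⟩
  · have hqx : 100 / 118 ≤ q * x := by
      have h2 : q * (1 / (q * (118 / 100))) ≤ q * x := by gcongr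
      have h3 : q * (1 / (q * (118 / 100))) = 100 / 118 := by field_simp
      linarith
    have h2 : (1 - c * a - 2 * a) * (100 / 118) ≤ (1 - c * a - 2 * a) * (q * x) := by gcongr
    have h3 : 3 / 10 * (5276 / 10000) ≤ q * (1 - c) := by
      apply mul_le_mul hq3 (by linarith) (by norm_num) hq0.le
    have h4 : (1 - q) * (1 - c * a) = 1 - q - c * a + q * (c * a) := by ring
    rw [h4]
    nlinarith
  · have hS : 0 < 1 - q := by linarith
    have hqx : q * (3963 / 1000 - 1 / (1 - q)) ≤ q * x := by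
      have : 0 ≤ 39 / 100 * a := by positivity
      gcongr
      linarith
    have hy : 0 ≤ 3963 / 1000 - 1 / (1 - q) := by
      have : 1 / (1 - q) ≤ 1 / (38 / 100) := by
        apply one_div_le_one_div_of_le (by norm_num)
        linarith
      have h5 : (1 : ℝ) / (38 / 100) ≤ 3 := by norm_num
      linarith
    have h2 : 61 / 100 * (q * (3963 / 1000 - 1 / (1 - q))) ≤ (1 - c * a - 2 * a) * (q * x) := by
      apply mul_le_mul hK hqx (by positivity) (by linarith)
    have h3 : q * (5276 / 10000) ≤ q * (1 - c) := by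
      gcongr
      linarith
    have h4 : (1 - q) * (1 - c * a) ≤ 1 - q := by nlinarith
    have h5 : 0 ≤ q * (c * a) := mul_nonneg hq0.le hca0
    have h6 : 1 - q < q * (5276 / 10000) + 61 / 100 * (q * (3963 / 1000 - 1 / (1 - q))) := by
      have h7 : q * (5276 / 10000) + 61 / 100 * (q * (3963 / 1000 - 1 / (1 - q))) - (1 - q) =
          ((q * (5276 / 10000) + 61 / 100 * (q * (3963 / 1000)) - (1 - q)) * (1 - q) - 61 / 100 * q) /
            (1 - q) := by
        field_simp
        ring
      have h8 : 0 < ((q * (5276 / 10000) + 61 / 100 * (q * (3963 / 1000)) - (1 - q)) * (1 - q) -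
          61 / 100 * q) / (1 - q) := by
        apply div_pos _ hS
        nlinarith [mul_nonneg (sub_nonneg.2 hq2) (sub_nonneg.2 hq3)]
      linarith
    linarith
  · have hS : 0 < 1 - q := by linarith
    have hqx : 74 / 100 ≤ q * x := by
      have h2 : c / (1 - q) * q ≤ x * q := by gcongr
      have h3 : 12 / 10 ≤ c / (1 - q) := by
        rw [le_div_iff₀ hS]
        linarith
      nlinarith
    have h2 : 61 / 100 * (74 / 100) ≤ (1 - c * a - 2 * a) * (q * x) := by
      apply mul_le_mul hK hqx (by norm_num) (by linarith)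
    have h3 : 62 / 100 * (5276 / 10000) ≤ q * (1 - c) := by
      apply mul_le_mul hq2 (by linarith) (by norm_num) hq0.le
    have h4 : (1 - q) * (1 - c * a) ≤ 1 - q := by nlinarith
    have h5 : 0 ≤ q * (c * a) := mul_nonneg hq0.le hca0
    linarith

end Pool.Agent.Q96.XU
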