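import Pool.Agent.Q113.XU.Stm
import Pool.Agent.Q257.EM.EEL

set_option autoImplicit false

namespace Pool.Agent.Q96.XU

open Finset Pool.Agent.Q54.EM Pool.Agent.Q113.XU Pool.Agent.Q257.EM

/-- the contribution of the paths staying at zero -/
theorem EE_ge_zero_pow {ι : Type} [Fintype ι] (p x : ι → ℝ) (hp : ∀ i, 0 ≤ p i)
    (hx : ∀ i, 0 ≤ x i) (n : ℕ) : ∀ f : ℝ → ℝ, (∀ s, 0 ≤ s → 0 ≤ f s) →
    (∑ i, if 0 < x i then 0 else p i) ^ n * f 0 ≤ EE p x n f := by
  have hq : 0 ≤ ∑ i, if 0 < x i then 0 else p i := by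
    refine sum_nonneg fun i _ => ?_
    split_ifs
    · exact le_rfl
    · exact hp i
  induction n with
  | zero => intro f _; simp [EE]
  | succ n ih =>
    intro f hf
    rw [EE_succ, pow_succ, mul_assoc, mul_comm _ (f 0), ← mul_assoc, mul_sum]
    refine sum_le_sum fun i _ => ?_
    have h0 : 0 ≤ EE p x n (fun s => f (s + x i)) := by
      have h1 := EE_mono p x hp hx n (fun _ => 0) (fun s => f (s + x i))
        (fun s hs => hf _ (add_nonneg hs (hx i)))
      rwa [EE_zero_fun] at h1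
    split_ifs with h
    · rw [mul_zero]
      exact mul_nonneg (hp i) h0
    · have hxi : x i = 0 := le_antisymm (not_lt.1 h) (hx i)
      rw [hxi]
      simp only [add_zero]
      rw [mul_comm]
      exact mul_le_mul_of_nonneg_left (ih f hf) (hp i)

theorem t_STL : S_STL := by
  intro ι _ p x k r l hk hrc hop
  obtain ⟨hr0, hr1, -⟩ := hrc
  have hp : ∀ i, 0 ≤ p i := fun i => (hop.law.pos i).le
  have hx := hop.law.nn
  have hk0 : (0 : ℝ) < k := by exact_mod_cast (by omega : 0 < k)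
  obtain ⟨m, rfl⟩ : ∃ m, k = m + 1 := ⟨k - 1, by omega⟩
  set q : ℝ := ∑ i, if 0 < x i then 0 else p i with hq
  have hq1 : 1 - r ≤ q := by
    have h1 : q + ∑ i, (if 0 < x i then p i else 0) = 1 := by
      rw [hq, ← sum_add_distrib, ← hop.law.sum]
      refine sum_congr rfl fun i _ => ?_
      split_ifs <;> ring
    linarith [hop.b1]
  have hq0 : 0 < q := by linarith
  set W : ℝ := PR p x (m + 1) ((m + 1 : ℕ) : ℝ) with hW
  have hW0 : 0 < W := by
    have := EE_ge_zero_pow p x hp hx (m + 1) (fun s => if s < ((m + 1 : ℕ) : ℝ) then 1 else 0)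
      (fun s _ => by split_ifs <;> norm_num)
    rw [← hq] at this
    simp only [if_pos hk0, mul_one] at this
    exact lt_of_lt_of_le (pow_pos hq0 _) this
  have hW1 : W ≤ 1 := by
    have := EE_mono p x hp hx (m + 1) (fun s => if s < ((m + 1 : ℕ) : ℝ) then 1 else 0)
      (fun _ => 1) (fun s _ => by split_ifs <;> norm_num)
    rw [EE_const p x hop.law.sum] at this
    exact this
  have hE : W * (((m + 1 : ℕ) : ℝ) - hh (m + 1) p x) =
      EE p x (m + 1) (fun s => ((m + 1 : ℕ) : ℝ) * (if s < ((m + 1 : ℕ) : ℝ) then 1 else 0) -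
        max (((m + 1 : ℕ) : ℝ) - s) 0) := by
    rw [EE_sub, EE_mul]
    have h1 : hh (m + 1) p x = GP p x (m + 1) ((m + 1 : ℕ) : ℝ) / W := rfl
    have h2 : EE p x (m + 1) (fun s => max (((m + 1 : ℕ) : ℝ) - s) 0) =
      GP p x (m + 1) ((m + 1 : ℕ) : ℝ) := rfl
    have h3 : EE p x (m + 1) (fun s => if s < ((m + 1 : ℕ) : ℝ) then 1 else 0) = W := rfl
    rw [h1, h2, h3]
    field_simp
  have hL : dS (m + 1) p x * q ^ m ≤ W * (((m + 1 : ℕ) : ℝ) - hh (m + 1) p x) := by
    rw [hE, EE_succ]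
    unfold dS
    rw [sum_mul]
    refine sum_le_sum fun i _ => ?_
    rw [mul_assoc]
    refine mul_le_mul_of_nonneg_left ?_ (hp i)
    have hf : ∀ s : ℝ, 0 ≤ s → 0 ≤ ((m + 1 : ℕ) : ℝ) * (if s < ((m + 1 : ℕ) : ℝ) then 1 else 0) -
        max (((m + 1 : ℕ) : ℝ) - s) 0 := by
      intro s hs
      split_ifs with h
      · rw [max_eq_left (by linarith)]
        linarith
      · rw [max_eq_right (by linarith)]
        linarith
    have h1 := EE_ge_zero_pow p x hp hx m (fun s =>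
      ((m + 1 : ℕ) : ℝ) * (if s + x i < ((m + 1 : ℕ) : ℝ) then 1 else 0) -
        max (((m + 1 : ℕ) : ℝ) - (s + x i)) 0) (fun s hs => hf _ (add_nonneg hs (hx i)))
    rw [← hq] at h1
    refine le_trans ?_ h1
    rw [mul_comm]
    refine mul_le_mul_of_nonneg_left ?_ (pow_nonneg hq0.le _)
    simp only [zero_add]
    have hxk := hop.xk i
    split_ifs with h
    · rw [max_eq_left (by linarith)]
      have := min_le_left (x i) (((m + 1 : ℕ) : ℝ) - x i)
      linarith
    · rw [max_eq_right (by linarith)]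
      have := min_le_right (x i) (((m + 1 : ℕ) : ℝ) - x i)
      linarith
  have hd : 0 ≤ dS (m + 1) p x := by
    refine sum_nonneg fun i _ => mul_nonneg (hp i) (le_min (hx i) ?_)
    linarith [hop.xk i]
  have h5 : dS (m + 1) p x * (1 - r) ^ m ≤ dS (m + 1) p x * q ^ m := by
    refine mul_le_mul_of_nonneg_left ?_ hd
    exact pow_le_pow_left₀ (by linarith) hq1 m
  have h6 : 0 ≤ ((m + 1 : ℕ) : ℝ) - hh (m + 1) p x := by
    have h7 : 0 ≤ W * (((m + 1 : ℕ) : ℝ) - hh (m + 1) p x) :=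
      le_trans (mul_nonneg hd (pow_nonneg hq0.le _)) hL
    exact nonneg_of_mul_nonneg_right h7 hW0
  have h8 : W * (((m + 1 : ℕ) : ℝ) - hh (m + 1) p x) ≤ ((m + 1 : ℕ) : ℝ) - hh (m + 1) p x :=
    mul_le_of_le_one_left h6 hW1
  have h9 : m + 1 - 1 = m := by omega
  rw [h9]
  linarith

end Pool.Agent.Q96.XU
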